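import Mathlib
import Pool.Agent.Y902.GN.Gq
import Pool.Agent.Y902.GN.Sc2

/-!
# Integral points with generated coordinates on one Weierstrass curve with large coefficients: algebra
-/

set_option autoImplicit false

namespace Pool.Agent.U405.HL

open Pool.Agent.Y902.GN

/-- bounded proportionality -/
def Prp (R x x' : ℤ) : Prop := ∃ p p' : ℤ, p ≠ 0 ∧ p' ≠ 0 ∧ |p| ≤ R ∧ |p'| ≤ R ∧ p * x = p' * x'

theorem Prp.mono {R R' x x' : ℤ} (h : Prp R x x') (hR : R ≤ R') : Prp R' x x' := by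
  obtain ⟨p, p', h1, h2, h3, h4, h5⟩ := h
  exact ⟨p, p', h1, h2, h3.trans hR, h4.trans hR, h5⟩

theorem prp_of_pow {R x x' c c' : ℤ} {k : ℕ} (hk : k ≠ 0) (hx : x ≠ 0) (hx' : x' ≠ 0)
    (hc : c ≠ 0) (hc' : c' ≠ 0) (hcR : |c| ≤ R) (hcR' : |c'| ≤ R) (h : c * x ^ k = c' * x' ^ k) :
    Prp R x x' := by
  have hg : 0 < Int.gcd x x' := Int.gcd_pos_of_ne_zero_left _ hx
  obtain ⟨m, m', h1, h2, h3⟩ := Int.exists_gcd_one hg
  obtain ⟨d, hd⟩ : ∃ d : ℤ, d = (Int.gcd x x' : ℤ) := ⟨_, rfl⟩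
  rw [← hd] at h2 h3
  have hd0 : d ≠ 0 := by
    rintro rfl
    exact hx (by rw [h2, mul_zero])
  have hm : m ≠ 0 := by
    rintro rfl
    exact hx (by rw [h2, zero_mul])
  have hm' : m' ≠ 0 := by
    rintro rfl
    exact hx' (by rw [h3, zero_mul])
  have h4 : c * m ^ k = c' * m' ^ k := by
    have : (c * m ^ k) * d ^ k = (c' * m' ^ k) * d ^ k := by
      rw [mul_assoc, ← mul_pow, ← h2, mul_assoc, ← mul_pow, ← h3, h]
    exact mul_right_cancel₀ (pow_ne_zero _ hd0) this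
  have hcop : IsCoprime m m' := Int.isCoprime_iff_gcd_eq_one.2 h1
  have h5 : m' ^ k ∣ c := by
    have : m' ^ k ∣ c * m ^ k := ⟨c', by rw [h4]; ring⟩
    exact (hcop.symm.pow).dvd_of_dvd_mul_right this
  have h6 : m ^ k ∣ c' := by
    have : m ^ k ∣ c' * m' ^ k := ⟨c, by rw [← h4]; ring⟩
    exact (hcop.pow).dvd_of_dvd_mul_right this
  have key : ∀ n z : ℤ, n ≠ 0 → z ≠ 0 → n ^ k ∣ z → |n| ≤ |z| := by
    intro n z hn hz hd
    have h7 : |n ^ k| ≤ |z| := Int.le_of_dvd (abs_pos.2 hz) ((abs_dvd_abs _ _).2 hd)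
    rw [abs_pow] at h7
    exact (le_self_pow₀ (Int.one_le_abs hn) hk).trans h7
  refine ⟨m', m, hm', hm, (key _ _ hm' hc h5).trans hcR, (key _ _ hm hc' h6).trans hcR', ?_⟩
  rw [h2, h3]
  ring

/-- **Proportional points are isomorphic.** -/
theorem iso_of_prp {R M α β a b a' b' x y x' y' : ℤ} (hR : 1 ≤ R) (hM : 1 ≤ M) (hα : |α| ≤ M)
    (hβ : |β| ≤ M) (ha : |a| ≤ R) (hb : |b| ≤ R) (ha' : |a'| ≤ R) (hb' : |b'| ≤ R)
    (e : y ^ 2 = x ^ 3 + α * a * x + β * b) (e' : y' ^ 2 = x' ^ 3 + α * a' * x' + β * b')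
    (hx : x ≠ 0) (hy : y ≠ 0) (hx' : x' ≠ 0) (hy' : y' ≠ 0) (h1 : Prp R x x')
    (h2 : Prp R (y ^ 2) (y' ^ 2)) (hbig : 4 * M * R ^ 5 < |x'|) :
    ∃ r : ℚ, r ≠ 0 ∧ ((α * a : ℤ) : ℚ) = r ^ 4 * ((α * a' : ℤ) : ℚ) ∧
      ((β * b : ℤ) : ℚ) = r ^ 6 * ((β * b' : ℤ) : ℚ) ∧ (x : ℚ) = r ^ 2 * x' ∧
      (y : ℚ) = r ^ 3 * y' := by
  obtain ⟨p, p', hp, hp', hpR, hpR', hpx⟩ := h1
  obtain ⟨q, q', hq, hq', hqR, hqR', hqy⟩ := h2
  have hR0 : (0 : ℤ) ≤ R := by linarith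
  have hM0 : (0 : ℤ) ≤ M := by linarith
  obtain ⟨c3, hc3⟩ : ∃ c3 : ℤ, c3 = q * p' ^ 3 - q' * p ^ 3 := ⟨_, rfl⟩
  obtain ⟨c1, hc1⟩ : ∃ c1 : ℤ, c1 = α * p ^ 2 * (q * a * p' - q' * p * a') := ⟨_, rfl⟩
  obtain ⟨c0, hc0⟩ : ∃ c0 : ℤ, c0 = β * p ^ 3 * (q * b - q' * b') := ⟨_, rfl⟩
  have hid : c3 * x' ^ 3 + c1 * x' + c0 = 0 := by
    rw [hc3, hc1, hc0]
    linear_combination (-q * ((p * x) ^ 2 + (p * x) * (p' * x') + (p' * x') ^ 2)) * hpx -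
      α * q * a * p ^ 2 * hpx + p ^ 3 * hqy - q * p ^ 3 * e + q' * p ^ 3 * e'
  have hx1 : 1 ≤ |x'| := Int.one_le_abs hx'
  have hMR : 1 ≤ M * R ^ 5 := by
    have : (1 : ℤ) ≤ R ^ 5 := one_le_pow₀ hR
    nlinarith
  have b1 : |c1| ≤ 2 * (M * R ^ 5) := by
    have g1 : |q * a * p'| ≤ R * R * R := by
      rw [abs_mul, abs_mul]
      gcongr
    have g2 : |q' * p * a'| ≤ R * R * R := by
      rw [abs_mul, abs_mul]
      gcongr
    have g3 : |q * a * p' - q' * p * a'| ≤ R * R * R + R * R * R :=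
      (abs_sub _ _).trans (add_le_add g1 g2)
    calc |c1| = |α| * |p| ^ 2 * |q * a * p' - q' * p * a'| := by
          rw [hc1, abs_mul, abs_mul, abs_pow]
      _ ≤ M * R ^ 2 * (R * R * R + R * R * R) := by gcongr
      _ = _ := by ring
  have b0 : |c0| ≤ 2 * (M * R ^ 5) := by
    have g1 : |q * b| ≤ R * R := by
      rw [abs_mul]
      gcongr
    have g2 : |q' * b'| ≤ R * R := by
      rw [abs_mul]
      gcongr
    have g3 : |q * b - q' * b'| ≤ R * R + R * R := (abs_sub _ _).trans (add_le_add g1 g2)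
    calc |c0| = |β| * |p| ^ 3 * |q * b - q' * b'| := by
          rw [hc0, abs_mul, abs_mul, abs_pow]
      _ ≤ M * R ^ 3 * (R * R + R * R) := by gcongr
      _ = _ := by ring
  have z3 : c3 = 0 := by
    by_contra hne
    have g1 : |c3 * x' ^ 3| = |c1 * x' + c0| := by
      rw [← abs_neg (c1 * x' + c0)]
      congr 1
      linear_combination hid
    have g2 : |c1 * x' + c0| ≤ 2 * (M * R ^ 5) * |x'| + 2 * (M * R ^ 5) := by
      refine (abs_add_le _ _).trans (add_le_add ?_ b0)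
      rw [abs_mul]
      exact mul_le_mul_of_nonneg_right b1 (abs_nonneg _)
    have g3 : |x'| ^ 3 ≤ |c3 * x' ^ 3| := by
      rw [abs_mul, abs_pow]
      exact le_mul_of_one_le_left (by positivity) (Int.one_le_abs hne)
    have g4 : 2 * (M * R ^ 5) * |x'| + 2 * (M * R ^ 5) ≤ 4 * (M * R ^ 5) * |x'| := by nlinarith
    have g5 : |x'| ^ 3 ≤ 4 * (M * R ^ 5) * |x'| := g3.trans (g1.le.trans (g2.trans g4))
    have g6 : |x'| ^ 2 ≤ 4 * (M * R ^ 5) := by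
      have : |x'| ^ 2 * |x'| ≤ 4 * (M * R ^ 5) * |x'| := by
        calc |x'| ^ 2 * |x'| = |x'| ^ 3 := by ring
          _ ≤ _ := g5
      exact le_of_mul_le_mul_right this (by linarith)
    nlinarith
  rw [z3, zero_mul, zero_add] at hid
  have z1 : c1 = 0 := by
    by_contra hne
    have g1 : |c1 * x'| = |c0| := by
      rw [← abs_neg c0]
      congr 1
      linear_combination hid
    have g3 : |x'| ≤ |c1 * x'| := by
      rw [abs_mul]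
      exact le_mul_of_one_le_left (by positivity) (Int.one_le_abs hne)
    nlinarith
  have z0 : c0 = 0 := by
    rw [z1, zero_mul, zero_add] at hid
    exact hid
  rw [hc3] at z3
  have z1' : α * (q * a * p' - q' * p * a') = 0 := by
    have g : p ^ 2 * (α * (q * a * p' - q' * p * a')) = 0 := by
      rw [← z1, hc1]
      ring
    exact (mul_eq_zero.1 g).resolve_left (pow_ne_zero _ hp)
  have z0' : β * (q * b - q' * b') = 0 := by
    have g : p ^ 3 * (β * (q * b - q' * b')) = 0 := by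
      rw [← z0, hc0]
      ring
    exact (mul_eq_zero.1 g).resolve_left (pow_ne_zero _ hp)
  have hxq : (x : ℚ) ≠ 0 := by exact_mod_cast hx
  have hyq : (y : ℚ) ≠ 0 := by exact_mod_cast hy
  have hxq' : (x' : ℚ) ≠ 0 := by exact_mod_cast hx'
  have hyq' : (y' : ℚ) ≠ 0 := by exact_mod_cast hy'
  have hpq : (p : ℚ) ≠ 0 := by exact_mod_cast hp
  have hpq' : (p' : ℚ) ≠ 0 := by exact_mod_cast hp'
  have hqq : (q : ℚ) ≠ 0 := by exact_mod_cast hq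
  have hqq' : (q' : ℚ) ≠ 0 := by exact_mod_cast hq'
  obtain ⟨ρ, hρ⟩ : ∃ ρ : ℚ, ρ = p' / p := ⟨_, rfl⟩
  have hρ0 : ρ ≠ 0 := by
    rw [hρ]
    exact div_ne_zero hpq' hpq
  have k1 : (x : ℚ) = ρ * x' := by
    rw [hρ]
    field_simp
    exact_mod_cast by linear_combination hpx
  have k2 : (q' : ℚ) = ρ ^ 3 * q := by
    rw [hρ]
    field_simp
    exact_mod_cast by linear_combination -z3
  have k3 : (y : ℚ) ^ 2 = ρ ^ 3 * (y' : ℚ) ^ 2 := by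
    have : (q : ℚ) * (y : ℚ) ^ 2 = q' * (y' : ℚ) ^ 2 := by exact_mod_cast hqy
    rw [k2] at this
    refine mul_left_cancel₀ hqq ?_
    linear_combination this
  have k4 : ((α * a : ℤ) : ℚ) = ρ ^ 2 * ((α * a' : ℤ) : ℚ) := by
    have t1 : (α : ℚ) * (q * a * p' - q' * p * a') = 0 := by exact_mod_cast z1'
    have t2 : (p' : ℚ) = ρ * p := by
      rw [hρ]
      field_simp
    rw [k2, t2] at t1
    push_cast
    have t3 : (q * ρ * p : ℚ) ≠ 0 := mul_ne_zero (mul_ne_zero hqq hρ0) hpq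
    refine mul_left_cancel₀ t3 ?_
    linear_combination t1
  have k5 : ((β * b : ℤ) : ℚ) = ρ ^ 3 * ((β * b' : ℤ) : ℚ) := by
    have t1 : (β : ℚ) * (q * b - q' * b') = 0 := by exact_mod_cast z0'
    rw [k2] at t1
    push_cast
    refine mul_left_cancel₀ hqq ?_
    linear_combination t1
  obtain ⟨r, hr⟩ : ∃ r : ℚ, r = (y : ℚ) / y' / ρ := ⟨_, rfl⟩
  have r2 : r ^ 2 = ρ := by
    rw [hr, div_pow, div_pow, k3]
    field_simp
  have r1 : (y : ℚ) = r * ρ * y' := by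
    rw [hr]
    field_simp
  refine ⟨r, ?_, ?_, ?_, ?_, ?_⟩
  · rw [hr]
    exact div_ne_zero (div_ne_zero hyq hyq') hρ0
  · rw [k4, ← r2]
    ring
  · rw [k5, ← r2]
    ring
  · rw [k1, r2]
  · rw [r1, ← r2]
    ring

theorem nvs4 (t : Fin 4 → ℤ) (h0 : t 0 ≠ 0) (h1 : t 1 ≠ 0) (h2 : t 2 ≠ 0) (h3 : t 3 ≠ 0)
    (hs : ∑ i, t i = 0) (h01 : t 0 + t 1 ≠ 0) (h02 : t 0 + t 2 ≠ 0) (h03 : t 0 + t 3 ≠ 0)
    (K : Finset (Fin 4)) (hK : K.Nonempty) (hK' : K ≠ Finset.univ) : ∑ i ∈ K, t i ≠ 0 := by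
  rw [Fin.sum_univ_four] at hs
  have hne : 0 ∈ K ∨ 1 ∈ K ∨ 2 ∈ K ∨ 3 ∈ K := by
    obtain ⟨i, hi⟩ := hK
    fin_cases i
    · exact Or.inl hi
    · exact Or.inr (Or.inl hi)
    · exact Or.inr (Or.inr (Or.inl hi))
    · exact Or.inr (Or.inr (Or.inr hi))
  have hun : ¬ (0 ∈ K ∧ 1 ∈ K ∧ 2 ∈ K ∧ 3 ∈ K) := by
    rintro ⟨a, b, c, d⟩
    apply hK'
    ext i
    fin_cases i <;> simp_all
  rw [← Finset.univ_inter K, ← Finset.sum_ite_mem, Fin.sum_univ_four]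
  intro h
  split_ifs at h <;> first | omega | tauto

theorem nvs3 (t : Fin 3 → ℤ) (h0 : t 0 ≠ 0) (h1 : t 1 ≠ 0) (h2 : t 2 ≠ 0)
    (hs : ∑ i, t i = 0)
    (K : Finset (Fin 3)) (hK : K.Nonempty) (hK' : K ≠ Finset.univ) : ∑ i ∈ K, t i ≠ 0 := by
  rw [Fin.sum_univ_three] at hs
  have hne : 0 ∈ K ∨ 1 ∈ K ∨ 2 ∈ K := by
    obtain ⟨i, hi⟩ := hK
    fin_cases i
    · exact Or.inl hi
    · exact Or.inr (Or.inl hi)
    · exact Or.inr (Or.inr hi)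
  have hun : ¬ (0 ∈ K ∧ 1 ∈ K ∧ 2 ∈ K) := by
    rintro ⟨a, b, c⟩
    apply hK'
    ext i
    fin_cases i <;> simp_all
  rw [← Finset.univ_inter K, ← Finset.sum_ite_mem, Fin.sum_univ_three]
  intro h
  split_ifs at h <;> first | omega | tauto

/-- distinct points which are not near each other are few -/
theorem class_bound {n N E C : ℕ} {ε δ : ℝ}
    (H : ∀ (Y : ℕ), 1 ≤ Y → ∀ (u : Fin n → ℤ), (∀ i, u i ≠ 0 ∧
      ((|u i| : ℤ) : ℝ) ≤ Real.exp ((Y : ℝ) ^ δ)) → ∀ (T : Finset (Fin n → ℤ)),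
      (∀ a ∈ T, GqPt n N E δ Y u a) → (∀ a ∈ T, ∀ a' ∈ T, a ≠ a' → ¬ NearP C Y a a') →
      (T.card : ℝ) ≤ (Y : ℝ) ^ ε) {Y : ℕ} (hY : 1 ≤ Y) {u : Fin n → ℤ} (hu : ∀ i, u i ≠ 0 ∧
      ((|u i| : ℤ) : ℝ) ≤ Real.exp ((Y : ℝ) ^ δ)) {P : Type} (T : Finset P) (v : P → Fin n → ℤ)
    (h1 : ∀ s ∈ T, GqPt n N E δ Y u (v s)) (h2 : ∀ s ∈ T, ∀ s' ∈ T, s ≠ s' → ¬ NearP C Y (v s) (v s')) :
    (T.card : ℝ) ≤ (Y : ℝ) ^ ε := by
  classical
  have hrefl : ∀ a : Fin n → ℤ, NearP C Y a a := by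
    intro a i i0
    have h : (1 : ℤ) ≤ ((Y : ℤ) + 2) ^ C := one_le_pow₀ (by omega)
    exact ⟨1, 1, one_ne_zero, one_ne_zero, by rw [abs_one]; exact h, by rw [abs_one]; exact h, rfl⟩
  have hinj : Set.InjOn v (T : Set P) := by
    intro s hs s' hs' h
    by_contra hne
    refine h2 s (Finset.mem_coe.1 hs) s' (Finset.mem_coe.1 hs') hne ?_
    rw [h]
    exact hrefl _
  rw [← Finset.card_image_of_injOn hinj]
  refine H Y hY u hu _ ?_ ?_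
  · intro a ha
    obtain ⟨s, hs, rfl⟩ := Finset.mem_image.1 ha
    exact h1 s hs
  · intro a ha a' ha' hne
    obtain ⟨s, hs, rfl⟩ := Finset.mem_image.1 ha
    obtain ⟨s', hs', rfl⟩ := Finset.mem_image.1 ha'
    exact h2 s hs s' hs' fun h => hne (by rw [h])

/-- a large point in terms of the multipliers `a`, `b` -/
structure Pt (N E : ℕ) (δ : ℝ) (X : ℕ) (α β a b x y : ℤ) : Prop where
  ha : |a| ≤ (X : ℤ) ^ E
  hb : |b| ≤ (X : ℤ) ^ E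
  eqn : y ^ 2 = x ^ 3 + α * a * x + β * b
  gen : ∃ (s t : ℤ) (g : Fin N → ℕ) (e f : Fin N → ℕ), |s| ≤ (X : ℤ) ^ E ∧ |t| ≤ (X : ℤ) ^ E ∧
    (∀ j, 1 ≤ g j ∧ g j ≤ X) ∧ x = s * ∏ j, (g j : ℤ) ^ e j ∧ y = t * ∏ j, (g j : ℤ) ^ f j
  hxa : |α * a| < |x|
  hxb : |β * b| < |x|
  bound : ((max |x| |y| : ℤ) : ℝ) ^ 3 * (X : ℝ) ^ E ≤ Real.exp ((X : ℝ) ^ δ)

theorem Pt.x_ne {N E X : ℕ} {δ : ℝ} {α β a b x y : ℤ} (h : Pt N E δ X α β a b x y) : x ≠ 0 := by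
  rintro rfl
  have := h.hxa
  rw [abs_zero] at this
  exact absurd this (not_lt.2 (abs_nonneg _))

theorem Pt.y_ne {N E X : ℕ} {δ : ℝ} {α β a b x y : ℤ} (h : Pt N E δ X α β a b x y) : y ≠ 0 := by
  rintro rfl
  have h1 : |x| ^ 3 = |α * a * x + β * b| := by
    rw [← abs_pow, ← abs_neg (x ^ 3)]
    congr 1
    linear_combination h.eqn
  have h2 : |α * a * x + β * b| ≤ |α * a| * |x| + |β * b| :=
    (abs_add_le _ _).trans (add_le_add (abs_mul _ _).le le_rfl)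
  have h3 := h.hxa
  have h4 := h.hxb
  have h5 := Int.one_le_abs h.x_ne
  have h6 : |α * a| * |x| ≤ (|x| - 1) * |x| := mul_le_mul_of_nonneg_right (by omega) (by omega)
  nlinarith [pow_pos (by omega : (0 : ℤ) < |x|) 2]

end Pool.Agent.U405.HL
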