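import Pool.Agent.U405.HL.A

/-!
# Integral points with generated coordinates on one Weierstrass curve: the three cases
-/

set_option autoImplicit false

namespace Pool.Agent.U405.HL

open Pool.Agent.Y902.GN

section
variable {N E X : ℕ} {δ : ℝ} {α β a b x y : ℤ}

theorem Pt.bds (h : Pt N E δ X α β a b x y) (hX : 1 ≤ X) :
    (((|y ^ 2| : ℤ) : ℝ) ≤ Real.exp ((X : ℝ) ^ δ)) ∧ (((|x ^ 3| : ℤ) : ℝ) ≤ Real.exp ((X : ℝ) ^ δ)) ∧
    (((|a * x| : ℤ) : ℝ) ≤ Real.exp ((X : ℝ) ^ δ)) ∧ (((|b| : ℤ) : ℝ) ≤ Real.exp ((X : ℝ) ^ δ)) := by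
  obtain ⟨D, hD⟩ : ∃ D : ℤ, D = max |x| |y| := ⟨_, rfl⟩
  have h0 := h.bound
  rw [← hD] at h0
  have hx : |x| ≤ D := by rw [hD]; exact le_max_left _ _
  have hy : |y| ≤ D := by rw [hD]; exact le_max_right _ _
  have hx1 := Int.one_le_abs h.x_ne
  have hD1 : 1 ≤ D := hx1.trans hx
  have hE : (1 : ℤ) ≤ (X : ℤ) ^ E := one_le_pow₀ (by exact_mod_cast hX)
  have key : ∀ z : ℤ, z ≤ D ^ 3 * (X : ℤ) ^ E → ((z : ℤ) : ℝ) ≤ Real.exp ((X : ℝ) ^ δ) := by
    intro z hz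
    refine le_trans ?_ h0
    exact_mod_cast hz
  have hD3 : (1 : ℤ) ≤ D ^ 3 := one_le_pow₀ hD1
  have q1 : D ^ 2 ≤ D ^ 3 := pow_le_pow_right₀ hD1 (by norm_num)
  have q2 : D ≤ D ^ 3 := le_self_pow₀ hD1 (by norm_num)
  have q3 : D ^ 3 ≤ D ^ 3 * (X : ℤ) ^ E := le_mul_of_one_le_right (by linarith) hE
  have q4 : (X : ℤ) ^ E ≤ D ^ 3 * (X : ℤ) ^ E := le_mul_of_one_le_left (by linarith) hD3
  refine ⟨key _ ?_, key _ ?_, key _ ?_, key _ ?_⟩
  · rw [abs_pow]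
    exact ((pow_le_pow_left₀ (abs_nonneg _) hy 2).trans q1).trans q3
  · rw [abs_pow]
    exact (pow_le_pow_left₀ (abs_nonneg _) hx 3).trans q3
  · rw [abs_mul, mul_comm]
    exact mul_le_mul (hx.trans q2) h.ha (abs_nonneg _) (by linarith)
  · exact h.hb.trans q4

theorem Pt.abs_pow3 (h : Pt N E δ X α β a b x y) : |x| ≤ |x| ^ 3 ∧ |x| ≤ |x| ^ 2 :=
  ⟨le_self_pow₀ (Int.one_le_abs h.x_ne) (by norm_num), le_self_pow₀ (Int.one_le_abs h.x_ne) (by norm_num)⟩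

/-- all four terms -/
theorem Pt.gq4 (h : Pt N E δ X α β a b x y) (hX : 1 ≤ X) (hA : α * a ≠ 0) (hB : β * b ≠ 0) :
    GqPt 4 N (3 * E) δ X ![1, -1, -α, -β] ![y ^ 2, x ^ 3, a * x, b] := by
  obtain ⟨hp1, hp2⟩ := h.abs_pow3
  have hx := h.x_ne
  have hy := h.y_ne
  have ha0 : a ≠ 0 := right_ne_zero_of_mul hA
  have hb0 : b ≠ 0 := right_ne_zero_of_mul hB
  have hα0 : α ≠ 0 := left_ne_zero_of_mul hA
  have hβ0 : β ≠ 0 := left_ne_zero_of_mul hB
  have heq := h.eqn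
  have hxa := h.hxa
  have hxb := h.hxb
  have hx1 := Int.one_le_abs hx
  refine ⟨?_, ?_, ?_, ?_, ?_⟩
  · intro i
    fin_cases i
    · exact pow_ne_zero 2 hy
    · exact pow_ne_zero 3 hx
    · exact mul_ne_zero ha0 hx
    · exact hb0
  · rw [Fin.sum_univ_four]
    simp
    linear_combination heq
  · intro K hK hK'
    refine nvs4 (fun i => (![1, -1, -α, -β] : Fin 4 → ℤ) i * (![y ^ 2, x ^ 3, a * x, b] : Fin 4 → ℤ) i)
      ?_ ?_ ?_ ?_ ?_ ?_ ?_ ?_ K hK hK'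
    · simpa using hy
    · simpa using hx
    · simpa using ⟨hα0, ha0, hx⟩
    · simpa using ⟨hβ0, hb0⟩
    · rw [Fin.sum_univ_four]
      simp
      linear_combination heq
    · simp
      intro h1
      have h2 : β * b = -(α * a * x) := by linear_combination h1 - heq
      have h3 : |β * b| = |α * a| * |x| := by rw [h2, abs_neg, abs_mul]
      have h4 := Int.one_le_abs hA
      nlinarith
    · simp
      intro h1
      have h2 : x ^ 3 = -(β * b) := by linear_combination h1 - heq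
      have h3 : |x| ^ 3 = |β * b| := by rw [← abs_pow, h2, abs_neg]
      omega
    · simp
      intro h1
      have h2 : x * (x ^ 2 + α * a) = 0 := by linear_combination h1 - heq
      have h3 : x ^ 2 = -(α * a) := by
        have := (mul_eq_zero.1 h2).resolve_left hx
        linear_combination this
      have h4 : |x| ^ 2 = |α * a| := by rw [← abs_pow, h3, abs_neg]
      omega
  · obtain ⟨g1, g2, g3, g4⟩ := h.bds hX
    intro i
    fin_cases i
    exacts [g1, g2, g3, g4]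
  · obtain ⟨s, t, g, e, f, hs, ht, hg, hgx, hgy⟩ := h.gen
    have hX1 : (1 : ℤ) ≤ (X : ℤ) := by exact_mod_cast hX
    refine ⟨![t ^ 2, s ^ 3, a * s, b], g, ![fun j => f j * 2, fun j => e j * 3, e, fun _ => 0], hg, ?_, ?_⟩
    · intro i
      have q1 : ((X : ℤ) ^ E) ^ 2 ≤ (X : ℤ) ^ (3 * E) := by
        rw [← pow_mul]
        exact pow_le_pow_right₀ hX1 (by omega)
      have q2 : ((X : ℤ) ^ E) ^ 3 ≤ (X : ℤ) ^ (3 * E) := by
        rw [← pow_mul]
        exact pow_le_pow_right₀ hX1 (by omega)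
      have q3 : ((X : ℤ) ^ E) ≤ (X : ℤ) ^ (3 * E) := pow_le_pow_right₀ hX1 (by omega)
      fin_cases i
      · show |t ^ 2| ≤ _
        rw [abs_pow]
        exact (pow_le_pow_left₀ (abs_nonneg _) ht 2).trans q1
      · show |s ^ 3| ≤ _
        rw [abs_pow]
        exact (pow_le_pow_left₀ (abs_nonneg _) hs 3).trans q2
      · show |a * s| ≤ _
        rw [abs_mul]
        refine (mul_le_mul h.ha hs (abs_nonneg _) (by positivity)).trans ?_
        rw [← pow_two]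
        exact q1
      · exact h.hb.trans q3
    · intro i
      fin_cases i
      · show y ^ 2 = t ^ 2 * ∏ j, (g j : ℤ) ^ (f j * 2)
        rw [hgy, mul_pow, ← Finset.prod_pow]
        congr 1
        exact Finset.prod_congr rfl fun j _ => (pow_mul _ _ _).symm
      · show x ^ 3 = s ^ 3 * ∏ j, (g j : ℤ) ^ (e j * 3)
        rw [hgx, mul_pow, ← Finset.prod_pow]
        congr 1
        exact Finset.prod_congr rfl fun j _ => (pow_mul _ _ _).symm
      · show a * x = a * s * ∏ j, (g j : ℤ) ^ e j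
        rw [hgx]
        ring
      · show b = b * ∏ j, (g j : ℤ) ^ 0
        simp

/-- no constant term -/
theorem Pt.gq3a (h : Pt N E δ X α β a b x y) (hX : 1 ≤ X) (hA : α * a ≠ 0) (hB : β * b = 0) :
    GqPt 3 N (3 * E) δ X ![1, -1, -α] ![y ^ 2, x ^ 3, a * x] := by
  have hx := h.x_ne
  have hy := h.y_ne
  have ha0 : a ≠ 0 := right_ne_zero_of_mul hA
  have hα0 : α ≠ 0 := left_ne_zero_of_mul hA
  have heq := h.eqn
  rw [hB, add_zero] at heq
  refine ⟨?_, ?_, ?_, ?_, ?_⟩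
  · intro i
    fin_cases i
    · exact pow_ne_zero 2 hy
    · exact pow_ne_zero 3 hx
    · exact mul_ne_zero ha0 hx
  · rw [Fin.sum_univ_three]
    simp
    linear_combination heq
  · intro K hK hK'
    refine nvs3 (fun i => (![1, -1, -α] : Fin 3 → ℤ) i * (![y ^ 2, x ^ 3, a * x] : Fin 3 → ℤ) i)
      ?_ ?_ ?_ ?_ K hK hK'
    · simpa using hy
    · simpa using hx
    · simpa using ⟨hα0, ha0, hx⟩
    · rw [Fin.sum_univ_three]
      simp
      linear_combination heq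
  · obtain ⟨g1, g2, g3, g4⟩ := h.bds hX
    intro i
    fin_cases i
    exacts [g1, g2, g3]
  · obtain ⟨s, t, g, e, f, hs, ht, hg, hgx, hgy⟩ := h.gen
    have hX1 : (1 : ℤ) ≤ (X : ℤ) := by exact_mod_cast hX
    refine ⟨![t ^ 2, s ^ 3, a * s], g, ![fun j => f j * 2, fun j => e j * 3, e], hg, ?_, ?_⟩
    · intro i
      have q1 : ((X : ℤ) ^ E) ^ 2 ≤ (X : ℤ) ^ (3 * E) := by
        rw [← pow_mul]
        exact pow_le_pow_right₀ hX1 (by omega)
      have q2 : ((X : ℤ) ^ E) ^ 3 ≤ (X : ℤ) ^ (3 * E) := by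
        rw [← pow_mul]
        exact pow_le_pow_right₀ hX1 (by omega)
      fin_cases i
      · show |t ^ 2| ≤ _
        rw [abs_pow]
        exact (pow_le_pow_left₀ (abs_nonneg _) ht 2).trans q1
      · show |s ^ 3| ≤ _
        rw [abs_pow]
        exact (pow_le_pow_left₀ (abs_nonneg _) hs 3).trans q2
      · show |a * s| ≤ _
        rw [abs_mul]
        refine (mul_le_mul h.ha hs (abs_nonneg _) (by positivity)).trans ?_
        rw [← pow_two]
        exact q1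
    · intro i
      fin_cases i
      · show y ^ 2 = t ^ 2 * ∏ j, (g j : ℤ) ^ (f j * 2)
        rw [hgy, mul_pow, ← Finset.prod_pow]
        congr 1
        exact Finset.prod_congr rfl fun j _ => (pow_mul _ _ _).symm
      · show x ^ 3 = s ^ 3 * ∏ j, (g j : ℤ) ^ (e j * 3)
        rw [hgx, mul_pow, ← Finset.prod_pow]
        congr 1
        exact Finset.prod_congr rfl fun j _ => (pow_mul _ _ _).symm
      · show a * x = a * s * ∏ j, (g j : ℤ) ^ e j
        rw [hgx]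
        ring

/-- no linear term -/
theorem Pt.gq3b (h : Pt N E δ X α β a b x y) (hX : 1 ≤ X) (hA : α * a = 0) (hB : β * b ≠ 0) :
    GqPt 3 N (3 * E) δ X ![1, -1, -β] ![y ^ 2, x ^ 3, b] := by
  have hx := h.x_ne
  have hy := h.y_ne
  have hb0 : b ≠ 0 := right_ne_zero_of_mul hB
  have hβ0 : β ≠ 0 := left_ne_zero_of_mul hB
  have heq := h.eqn
  rw [hA, zero_mul, add_zero] at heq
  refine ⟨?_, ?_, ?_, ?_, ?_⟩
  · intro i
    fin_cases i
    · exact pow_ne_zero 2 hy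
    · exact pow_ne_zero 3 hx
    · exact hb0
  · rw [Fin.sum_univ_three]
    simp
    linear_combination heq
  · intro K hK hK'
    refine nvs3 (fun i => (![1, -1, -β] : Fin 3 → ℤ) i * (![y ^ 2, x ^ 3, b] : Fin 3 → ℤ) i)
      ?_ ?_ ?_ ?_ K hK hK'
    · simpa using hy
    · simpa using hx
    · simpa using ⟨hβ0, hb0⟩
    · rw [Fin.sum_univ_three]
      simp
      linear_combination heq
  · obtain ⟨g1, g2, g3, g4⟩ := h.bds hX
    intro i
    fin_cases i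
    exacts [g1, g2, g4]
  · obtain ⟨s, t, g, e, f, hs, ht, hg, hgx, hgy⟩ := h.gen
    have hX1 : (1 : ℤ) ≤ (X : ℤ) := by exact_mod_cast hX
    refine ⟨![t ^ 2, s ^ 3, b], g, ![fun j => f j * 2, fun j => e j * 3, fun _ => 0], hg, ?_, ?_⟩
    · intro i
      have q1 : ((X : ℤ) ^ E) ^ 2 ≤ (X : ℤ) ^ (3 * E) := by
        rw [← pow_mul]
        exact pow_le_pow_right₀ hX1 (by omega)
      have q2 : ((X : ℤ) ^ E) ^ 3 ≤ (X : ℤ) ^ (3 * E) := by
        rw [← pow_mul]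
        exact pow_le_pow_right₀ hX1 (by omega)
      have q3 : ((X : ℤ) ^ E) ≤ (X : ℤ) ^ (3 * E) := pow_le_pow_right₀ hX1 (by omega)
      fin_cases i
      · show |t ^ 2| ≤ _
        rw [abs_pow]
        exact (pow_le_pow_left₀ (abs_nonneg _) ht 2).trans q1
      · show |s ^ 3| ≤ _
        rw [abs_pow]
        exact (pow_le_pow_left₀ (abs_nonneg _) hs 3).trans q2
      · exact h.hb.trans q3
    · intro i
      fin_cases i
      · show y ^ 2 = t ^ 2 * ∏ j, (g j : ℤ) ^ (f j * 2)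
        rw [hgy, mul_pow, ← Finset.prod_pow]
        congr 1
        exact Finset.prod_congr rfl fun j _ => (pow_mul _ _ _).symm
      · show x ^ 3 = s ^ 3 * ∏ j, (g j : ℤ) ^ (e j * 3)
        rw [hgx, mul_pow, ← Finset.prod_pow]
        congr 1
        exact Finset.prod_congr rfl fun j _ => (pow_mul _ _ _).symm
      · show b = b * ∏ j, (g j : ℤ) ^ 0
        simp

end

/-- the bound for the proportionality factors -/
def Rb (C E X : ℕ) : ℤ := ((X : ℤ) + 2) ^ (2 * C + 2 * E)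

section
variable {C E X : ℕ} {a b a' b' x y x' y' : ℤ}

theorem bd2 {r z : ℤ} (hr : |r| ≤ ((X : ℤ) + 2) ^ C) (hz : |z| ≤ (X : ℤ) ^ E) :
    |r * z| ≤ ((X : ℤ) + 2) ^ (C + E) := by
  rw [abs_mul, pow_add]
  have : (X : ℤ) ^ E ≤ ((X : ℤ) + 2) ^ E := pow_le_pow_left₀ (by positivity) (by omega) _
  exact mul_le_mul hr (hz.trans this) (abs_nonneg _) (by positivity)

theorem bd3 {r z w : ℤ} (hr : |r| ≤ ((X : ℤ) + 2) ^ C) (hz : |z| ≤ (X : ℤ) ^ E) (hw : |w| ≤ (X : ℤ) ^ E) :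
    |r * z * w| ≤ Rb C E X := by
  have h1 := bd2 hr hz
  have : (X : ℤ) ^ E ≤ ((X : ℤ) + 2) ^ E := pow_le_pow_left₀ (by positivity) (by omega) _
  rw [abs_mul]
  refine (mul_le_mul h1 (hw.trans this) (abs_nonneg _) (by positivity)).trans ?_
  rw [← pow_add]
  exact pow_le_pow_right₀ (by omega) (by omega)

theorem le_Rb {m : ℕ} (h : m ≤ 2 * C + 2 * E) {z : ℤ} (hz : z ≤ ((X : ℤ) + 2) ^ m) : z ≤ Rb C E X :=
  hz.trans (pow_le_pow_right₀ (by omega) h)

theorem near4 (ha : |a| ≤ (X : ℤ) ^ E) (hb : |b| ≤ (X : ℤ) ^ E) (ha' : |a'| ≤ (X : ℤ) ^ E)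
    (hb' : |b'| ≤ (X : ℤ) ^ E) (a0 : a ≠ 0) (b0 : b ≠ 0) (a0' : a' ≠ 0) (b0' : b' ≠ 0)
    (h : NearP C X ![y ^ 2, x ^ 3, a * x, b] ![y' ^ 2, x' ^ 3, a' * x', b']) :
    Prp (Rb C E X) x x' ∧ Prp (Rb C E X) (y ^ 2) (y' ^ 2) := by
  constructor
  · obtain ⟨r, r', h1, h2, h3, h4, h5⟩ := h 2 3
    have h6 : r * (a * x * b') = r' * (a' * x' * b) := h5
    refine ⟨r * a * b', r' * a' * b, mul_ne_zero (mul_ne_zero h1 a0) b0',
      mul_ne_zero (mul_ne_zero h2 a0') b0, bd3 h3 ha hb', bd3 h4 ha' hb, ?_⟩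
    linear_combination h6
  · obtain ⟨r, r', h1, h2, h3, h4, h5⟩ := h 0 3
    have h6 : r * (y ^ 2 * b') = r' * (y' ^ 2 * b) := h5
    refine ⟨r * b', r' * b, mul_ne_zero h1 b0', mul_ne_zero h2 b0, le_Rb (by omega) (bd2 h3 hb'),
      le_Rb (by omega) (bd2 h4 hb), ?_⟩
    linear_combination h6

theorem near3b (hb : |b| ≤ (X : ℤ) ^ E) (hb' : |b'| ≤ (X : ℤ) ^ E) (b0 : b ≠ 0) (b0' : b' ≠ 0)
    (hx : x ≠ 0) (hx' : x' ≠ 0)
    (h : NearP C X ![y ^ 2, x ^ 3, b] ![y' ^ 2, x' ^ 3, b']) :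
    Prp (Rb C E X) x x' ∧ Prp (Rb C E X) (y ^ 2) (y' ^ 2) := by
  constructor
  · obtain ⟨r, r', h1, h2, h3, h4, h5⟩ := h 1 2
    have h6 : r * (x ^ 3 * b') = r' * (x' ^ 3 * b) := h5
    refine prp_of_pow (c := r * b') (c' := r' * b) (k := 3) (by norm_num) hx hx' (mul_ne_zero h1 b0')
      (mul_ne_zero h2 b0) (le_Rb (by omega) (bd2 h3 hb')) (le_Rb (by omega) (bd2 h4 hb)) ?_
    linear_combination h6
  · obtain ⟨r, r', h1, h2, h3, h4, h5⟩ := h 0 2
    have h6 : r * (y ^ 2 * b') = r' * (y' ^ 2 * b) := h5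
    refine ⟨r * b', r' * b, mul_ne_zero h1 b0', mul_ne_zero h2 b0, le_Rb (by omega) (bd2 h3 hb'),
      le_Rb (by omega) (bd2 h4 hb), ?_⟩
    linear_combination h6

theorem near3a (ha : |a| ≤ (X : ℤ) ^ E) (ha' : |a'| ≤ (X : ℤ) ^ E) (a0 : a ≠ 0) (a0' : a' ≠ 0)
    (hx : x ≠ 0) (hx' : x' ≠ 0)
    (h : NearP C X ![y ^ 2, x ^ 3, a * x] ![y' ^ 2, x' ^ 3, a' * x']) :
    Prp (Rb C E X) x x' ∧ Prp (Rb C E X) (y ^ 2) (y' ^ 2) := by
  obtain ⟨r, r', h1, h2, h3, h4, h5⟩ := h 1 2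
  have h6 : r * (x ^ 3 * (a' * x')) = r' * (x' ^ 3 * (a * x)) := h5
  have h7 : r * a' * x ^ 2 = r' * a * x' ^ 2 := by
    refine mul_right_cancel₀ (mul_ne_zero hx hx') ?_
    linear_combination h6
  have hP : Prp (((X : ℤ) + 2) ^ (C + E)) x x' :=
    prp_of_pow (c := r * a') (c' := r' * a) (k := 2) (by norm_num) hx hx' (mul_ne_zero h1 a0')
      (mul_ne_zero h2 a0) (bd2 h3 ha') (bd2 h4 ha) h7
  refine ⟨hP.mono (le_Rb (by omega) le_rfl), ?_⟩
  obtain ⟨p, p', k1, k2, k3, k4, k5⟩ := hP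
  obtain ⟨s, s', l1, l2, l3, l4, l5⟩ := h 0 2
  have l6 : s * (y ^ 2 * (a' * x')) = s' * (y' ^ 2 * (a * x)) := l5
  have key : ∀ s a p : ℤ, |s| ≤ ((X : ℤ) + 2) ^ C → |a| ≤ (X : ℤ) ^ E → |p| ≤ ((X : ℤ) + 2) ^ (C + E) →
      |s * a * p| ≤ Rb C E X := by
    intro s a p g1 g2 g3
    rw [abs_mul]
    refine (mul_le_mul (bd2 g1 g2) g3 (abs_nonneg _) (by positivity)).trans ?_
    rw [← pow_add]
    exact pow_le_pow_right₀ (by omega) (by omega)
  refine ⟨s * a' * p, s' * a * p', mul_ne_zero (mul_ne_zero l1 a0') k1,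
    mul_ne_zero (mul_ne_zero l2 a0) k2, key _ _ _ l3 ha' k3, key _ _ _ l4 ha k4, ?_⟩
  refine mul_right_cancel₀ hx' ?_
  linear_combination p * l6 + s' * a * y' ^ 2 * k5

end

end Pool.Agent.U405.HL
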