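import Pool.Agent.U405.HL.B

/-!
# Integral points with generated coordinates on one Weierstrass curve: the bound
-/

set_option autoImplicit false

namespace Pool.Agent.U405.HL

open Pool.Agent.Y902.GN Filter

/-- the pairs (curve, point) are isomorphic over `ℚ` -/
def Iso (α β a b x y a' b' x' y' : ℤ) : Prop :=
  ∃ r : ℚ, r ≠ 0 ∧ ((α * a : ℤ) : ℚ) = r ^ 4 * ((α * a' : ℤ) : ℚ) ∧
      ((β * b : ℤ) : ℚ) = r ^ 6 * ((β * b' : ℤ) : ℚ) ∧ (x : ℚ) = r ^ 2 * x' ∧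
      (y : ℚ) = r ^ 3 * y'

/-- a large point -/
structure LP (N E K : ℕ) (δ : ℝ) (X : ℕ) (α β a b x y : ℤ) : Prop where
  ha : |a| ≤ (X : ℤ) ^ E
  hb : |b| ≤ (X : ℤ) ^ E
  ne : α * a ≠ 0 ∨ β * b ≠ 0
  eqn : y ^ 2 = x ^ 3 + α * a * x + β * b
  gen : ∃ (s t : ℤ) (g : Fin N → ℕ) (e f : Fin N → ℕ), |s| ≤ (X : ℤ) ^ E ∧ |t| ≤ (X : ℤ) ^ E ∧
    (∀ j, 1 ≤ g j ∧ g j ≤ X) ∧ x = s * ∏ j, (g j : ℤ) ^ e j ∧ y = t * ∏ j, (g j : ℤ) ^ f j
  large : ((X : ℤ) * max |α| |β|) ^ K < max |x| |y|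
  bound : ((max |x| |y| : ℤ) : ℝ) ≤ Real.exp ((X : ℝ) ^ δ)

theorem LP.one_le {N E K X : ℕ} {δ : ℝ} {α β a b x y : ℤ} (h : LP N E K δ X α β a b x y) :
    1 ≤ max |α| |β| := by
  rcases h.ne with h1 | h1
  · exact le_max_of_le_left (Int.one_le_abs (left_ne_zero_of_mul h1))
  · exact le_max_of_le_right (Int.one_le_abs (left_ne_zero_of_mul h1))

theorem mx_le {X E : ℕ} {M : ℤ} (hX : 1 ≤ (X : ℤ)) (hM : 1 ≤ M) :
    M * (X : ℤ) ^ E ≤ ((X : ℤ) * M) ^ (E + 1) := by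
  have h1 : M ≤ (X : ℤ) * M := le_mul_of_one_le_left (by linarith) hX
  have h2 : (X : ℤ) ≤ (X : ℤ) * M := le_mul_of_one_le_right (by linarith) hM
  have h3 : (X : ℤ) ^ E ≤ ((X : ℤ) * M) ^ E := pow_le_pow_left₀ (by linarith) h2 _
  rw [pow_succ, mul_comm (((X : ℤ) * M) ^ E)]
  exact mul_le_mul h1 h3 (by positivity) (by positivity)

theorem x_large {X E k : ℕ} {M A B x y : ℤ} (hX : 2 ≤ (X : ℤ)) (hM : 1 ≤ M)
    (hA : |A| ≤ M * (X : ℤ) ^ E) (hB : |B| ≤ M * (X : ℤ) ^ E) (eqn : y ^ 2 = x ^ 3 + A * x + B)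
    (h : ((X : ℤ) * M) ^ (3 * k + E + 3) < max |x| |y|) : ((X : ℤ) * M) ^ k < |x| := by
  by_contra hcon
  push Not at hcon
  obtain ⟨W, hW⟩ : ∃ W : ℤ, W = (X : ℤ) * M := ⟨_, rfl⟩
  have hV := mx_le (E := E) (by linarith : 1 ≤ (X : ℤ)) hM
  rw [← hW] at hcon h hV
  have hW2 : 2 ≤ W := by rw [hW]; nlinarith
  have hW0 : (0 : ℤ) < W := by linarith
  obtain ⟨Z, hZ⟩ : ∃ Z : ℤ, Z = W ^ k := ⟨_, rfl⟩
  obtain ⟨V, hVd⟩ : ∃ V : ℤ, V = W ^ (E + 1) := ⟨_, rfl⟩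
  rw [← hVd] at hV
  rw [← hZ] at hcon
  have hZ1 : 1 ≤ Z := by rw [hZ]; exact one_le_pow₀ (by linarith)
  have hV1 : 1 ≤ V := by rw [hVd]; exact one_le_pow₀ (by linarith)
  have hA' := hA.trans hV
  have hB' := hB.trans hV
  have e1 : |y| ≤ y ^ 2 := by
    rcases eq_or_ne y 0 with rfl | hy
    · simp
    · rw [← sq_abs y]
      have := Int.one_le_abs hy
      nlinarith
  have hZ3 : Z ≤ Z ^ 3 := le_self_pow₀ hZ1 (by norm_num)
  have e2 : y ^ 2 ≤ 3 * (Z ^ 3 * V) := by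
    calc y ^ 2 ≤ |y ^ 2| := le_abs_self _
      _ = |x ^ 3 + A * x + B| := by rw [eqn]
      _ ≤ |x ^ 3| + |A * x| + |B| := (abs_add_le _ _).trans (add_le_add_left (abs_add_le _ _) _)
      _ = |x| ^ 3 + |A| * |x| + |B| := by rw [abs_pow, abs_mul]
      _ ≤ Z ^ 3 + V * Z + V := by gcongr
      _ ≤ _ := by
        have g1 : Z ^ 3 ≤ Z ^ 3 * V := le_mul_of_one_le_right (by positivity) hV1
        have g2 : V * Z ≤ Z ^ 3 * V := by
          rw [mul_comm V]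
          exact mul_le_mul_of_nonneg_right hZ3 (by linarith)
        have g3 : V ≤ Z ^ 3 * V := le_mul_of_one_le_left (by linarith) (one_le_pow₀ hZ1)
        linarith
  have e3 : 3 * (Z ^ 3 * V) ≤ W ^ (3 * k + E + 3) := by
    have g1 : (3 : ℤ) ≤ W ^ 2 := by nlinarith
    calc 3 * (Z ^ 3 * V) ≤ W ^ 2 * (Z ^ 3 * V) :=
          mul_le_mul_of_nonneg_right g1 (by positivity)
      _ = W ^ (3 * k + E + 3) := by
          rw [hZ, hVd, ← pow_mul, ← pow_add, ← pow_add]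
          congr 1
          ring
  have e4 : |x| ≤ W ^ (3 * k + E + 3) := by
    refine hcon.trans ?_
    rw [hZ]
    exact pow_le_pow_right₀ (by linarith) (by omega)
  exact absurd h (not_lt.2 (max_le e4 (e1.trans (e2.trans e3))))

theorem Rb_le {C E X : ℕ} {M : ℤ} (hX : 2 ≤ (X : ℤ)) (hM : 1 ≤ M) :
    4 * M * Rb C E X ^ 5 ≤ ((X : ℤ) * M) ^ (20 * C + 20 * E + 3) := by
  obtain ⟨W, hW⟩ : ∃ W : ℤ, W = (X : ℤ) * M := ⟨_, rfl⟩
  rw [← hW]
  have h1 : M ≤ W := by rw [hW]; exact le_mul_of_one_le_left (by linarith) (by linarith)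
  have h2 : (X : ℤ) ≤ W := by rw [hW]; exact le_mul_of_one_le_right (by linarith) hM
  have h3 : (X : ℤ) + 2 ≤ W ^ 2 := by nlinarith
  have h4 : (4 : ℤ) ≤ W ^ 2 := by nlinarith
  have hW0 : (0 : ℤ) ≤ W := by linarith
  calc 4 * M * Rb C E X ^ 5 ≤ W ^ 2 * W * ((W ^ 2) ^ (2 * C + 2 * E)) ^ 5 := by
        unfold Rb
        gcongr
    _ = _ := by
        rw [← pow_mul, ← pow_mul, ← pow_succ, ← pow_add]
        congr 1
        ring

theorem iso_of {C E N X : ℕ} {δ : ℝ} {α β a b x y a' b' x' y' : ℤ}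
    (h : Pt N E δ X α β a b x y) (h' : Pt N E δ X α β a' b' x' y') (hX : 2 ≤ (X : ℤ))
    (hM : 1 ≤ max |α| |β|)
    (hp : Prp (Rb C E X) x x' ∧ Prp (Rb C E X) (y ^ 2) (y' ^ 2))
    (hbig : ((X : ℤ) * max |α| |β|) ^ (20 * C + 20 * E + 3) < |x'|) :
    Iso α β a b x y a' b' x' y' := by
  have hR : ∀ z : ℤ, |z| ≤ (X : ℤ) ^ E → |z| ≤ Rb C E X := by
    intro z hz
    refine le_Rb (m := E) (by omega) (hz.trans ?_)
    exact pow_le_pow_left₀ (by linarith) (by linarith) _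
  have hR1 : 1 ≤ Rb C E X := one_le_pow₀ (by linarith)
  exact iso_of_prp hR1 hM (le_max_left _ _) (le_max_right _ _) (hR _ h.ha) (hR _ h.hb)
    (hR _ h'.ha) (hR _ h'.hb) h.eqn h'.eqn h.x_ne h.y_ne h'.x_ne h'.y_ne hp.1 hp.2
    ((Rb_le hX hM).trans_lt hbig)

theorem ev_pow {δ : ℝ} (hδ : 0 < δ) (B : ℝ) : ∀ᶠ X : ℕ in atTop, B ≤ (X : ℝ) ^ δ :=
  ((tendsto_rpow_atTop hδ).comp tendsto_natCast_atTop_atTop).eventually_ge_atTop B

theorem ev_exp {δ δ' : ℝ} (hδ : 0 < δ) (h : 2 * δ ≤ δ') (E : ℕ) :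
    ∀ᶠ X : ℕ in atTop, Real.exp ((X : ℝ) ^ δ) ^ 3 * (X : ℝ) ^ E ≤ Real.exp ((X : ℝ) ^ δ') := by
  filter_upwards [ev_pow hδ (3 + E / δ), eventually_ge_atTop 1] with X h1 h2
  have hX : (1 : ℝ) ≤ X := by exact_mod_cast h2
  have hX0 : (0 : ℝ) < X := by linarith
  have e1 : (X : ℝ) ^ E ≤ Real.exp (E / δ * (X : ℝ) ^ δ) := by
    rw [← Real.exp_log (pow_pos hX0 E), Real.log_pow]
    apply Real.exp_le_exp.2
    have := Real.log_le_rpow_div hX0.le hδ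
    calc (E : ℝ) * Real.log X ≤ E * ((X : ℝ) ^ δ / δ) := by gcongr
      _ = _ := by ring
  have e2 : Real.exp ((X : ℝ) ^ δ) ^ 3 = Real.exp (3 * (X : ℝ) ^ δ) := by
    rw [← Real.exp_nat_mul]
    norm_num
  have e3 : (0 : ℝ) < (X : ℝ) ^ δ := by positivity
  calc Real.exp ((X : ℝ) ^ δ) ^ 3 * (X : ℝ) ^ E ≤
        Real.exp (3 * (X : ℝ) ^ δ) * Real.exp (E / δ * (X : ℝ) ^ δ) := by
        rw [e2]
        gcongr
    _ = Real.exp ((3 + E / δ) * (X : ℝ) ^ δ) := by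
        rw [← Real.exp_add]
        congr 1
        ring
    _ ≤ Real.exp ((X : ℝ) ^ δ * (X : ℝ) ^ δ) := by
        apply Real.exp_le_exp.2
        gcongr
    _ = Real.exp ((X : ℝ) ^ (2 * δ)) := by
        rw [← Real.rpow_add hX0, two_mul]
    _ ≤ _ := by
        apply Real.exp_le_exp.2
        exact Real.rpow_le_rpow_of_exponent_le hX h

theorem ev_three {ε : ℝ} (hε : 0 < ε) : ∀ᶠ X : ℕ in atTop, 3 * (X : ℝ) ^ (ε / 2) ≤ (X : ℝ) ^ ε := by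
  filter_upwards [ev_pow (half_pos hε) 3, eventually_ge_atTop 1] with X h1 h2
  have hX0 : (0 : ℝ) < X := by exact_mod_cast h2
  calc 3 * (X : ℝ) ^ (ε / 2) ≤ (X : ℝ) ^ (ε / 2) * (X : ℝ) ^ (ε / 2) := by gcongr
    _ = (X : ℝ) ^ ε := by
        rw [← Real.rpow_add hX0, add_halves]

/-- **Few large points up to isomorphism.** -/
theorem main (N E : ℕ) (ε : ℝ) (hε : 0 < ε) : ∃ (K : ℕ) (δ : ℝ), 0 < δ ∧ ∀ X : ℕ, 2 ≤ X →
    ∀ α β : ℤ, ((|α| : ℤ) : ℝ) ≤ Real.exp ((X : ℝ) ^ δ) → ((|β| : ℤ) : ℝ) ≤ Real.exp ((X : ℝ) ^ δ) →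
    ∀ (P : Type) (T : Finset P) (a b x y : P → ℤ),
      (∀ s ∈ T, LP N E K δ X α β (a s) (b s) (x s) (y s)) →
      (∀ s ∈ T, ∀ s' ∈ T, s ≠ s' → ¬ Iso α β (a s) (b s) (x s) (y s) (a s') (b s') (x s') (y s')) →
      (T.card : ℝ) ≤ (X : ℝ) ^ ε := by
  classical
  obtain ⟨C4, δ4, hδ4, H4⟩ := gq 4 N (3 * E) (ε / 2) (by positivity)
  obtain ⟨C3, δ3, hδ3, H3⟩ := gq 3 N (3 * E) (ε / 2) (by positivity)
  obtain ⟨δ, hδd⟩ : ∃ δ : ℝ, δ = min (min δ4 δ3 / 2) 1 := ⟨_, rfl⟩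
  have hδ : 0 < δ := by
    rw [hδd]
    exact lt_min (half_pos (lt_min hδ4 hδ3)) one_pos
  have hδ1 : δ ≤ 1 := by rw [hδd]; exact min_le_right _ _
  have hd4 : 2 * δ ≤ δ4 := by
    have h1 : δ ≤ min δ4 δ3 / 2 := by rw [hδd]; exact min_le_left _ _
    have h2 := min_le_left δ4 δ3
    linarith
  have hd3 : 2 * δ ≤ δ3 := by
    have h1 : δ ≤ min δ4 δ3 / 2 := by rw [hδd]; exact min_le_left _ _
    have h2 := min_le_right δ4 δ3
    linarith
  obtain ⟨X1, hX1⟩ := eventually_atTop.1 (((ev_exp hδ hd4 E).and (ev_exp hδ hd3 E)).and (ev_three hε))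
  obtain ⟨C, hC⟩ : ∃ C : ℕ, C = max C4 C3 := ⟨_, rfl⟩
  have hC4 : C4 ≤ C := by rw [hC]; exact le_max_left _ _
  have hC3 : C3 ≤ C := by rw [hC]; exact le_max_right _ _
  obtain ⟨k, hk⟩ : ∃ k : ℕ, k = 20 * C + 20 * E + 3 := ⟨_, rfl⟩
  refine ⟨3 * k + E + 3 + 2 * X1, δ, hδ, fun X hX α β hα hβ P T a b x y hT hsep => ?_⟩
  have hXr : (1 : ℝ) ≤ (X : ℝ) := by exact_mod_cast (by omega : 1 ≤ X)
  have hXz : (2 : ℤ) ≤ (X : ℤ) := by exact_mod_cast hX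
  rcases T.eq_empty_or_nonempty with rfl | ⟨s0, hs0⟩
  · rw [Finset.card_empty, Nat.cast_zero]
    positivity
  have hM : 1 ≤ max |α| |β| := (hT s0 hs0).one_le
  obtain ⟨M, hMd⟩ : ∃ M : ℤ, M = max |α| |β| := ⟨_, rfl⟩
  have hW2 : 2 ≤ (X : ℤ) * max |α| |β| := by nlinarith
  -- large `X`
  have hXX : X1 ≤ X := by
    by_contra hcon
    push Not at hcon
    have h1 := (hT s0 hs0).large
    have h2 := (hT s0 hs0).bound
    have h3 : (2 : ℤ) ^ (2 * X1) ≤ ((X : ℤ) * max |α| |β|) ^ (3 * k + E + 3 + 2 * X1) :=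
      calc (2 : ℤ) ^ (2 * X1) ≤ ((X : ℤ) * max |α| |β|) ^ (2 * X1) :=
            pow_le_pow_left₀ (by norm_num) hW2 _
        _ ≤ _ := pow_le_pow_right₀ (by linarith) (by omega)
    have h4 : (((2 : ℤ) ^ (2 * X1) : ℤ) : ℝ) < Real.exp ((X : ℝ) ^ δ) := by
      refine lt_of_lt_of_le ?_ h2
      exact_mod_cast h3.trans_lt h1
    have h5 : (X : ℝ) ^ δ ≤ X1 := by
      calc (X : ℝ) ^ δ ≤ (X : ℝ) ^ (1 : ℝ) := Real.rpow_le_rpow_of_exponent_le hXr hδ1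
        _ = X := Real.rpow_one _
        _ ≤ X1 := by exact_mod_cast hcon.le
    have h6 : Real.exp ((X1 : ℝ)) ≤ (2 : ℝ) ^ (2 * X1) := by
      rw [pow_mul]
      have h7 : Real.exp 1 ≤ 2 ^ 2 := by
        have := Real.exp_one_lt_d9
        norm_num
        linarith
      calc Real.exp ((X1 : ℝ)) = Real.exp 1 ^ X1 := by
            rw [← Real.exp_nat_mul, mul_one]
        _ ≤ (2 ^ 2) ^ X1 := pow_le_pow_left₀ (by positivity) h7 _
    push_cast at h4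
    have h8 := Real.exp_le_exp.2 h5
    linarith
  obtain ⟨⟨n4, n3⟩, n2⟩ := hX1 X hXX
  have big : ∀ s ∈ T, ((X : ℤ) * max |α| |β|) ^ k < |x s| := by
    intro s hs
    have h := hT s hs
    refine x_large (E := E) (A := α * a s) (B := β * b s) hXz hM ?_ ?_ h.eqn
      (lt_of_le_of_lt (pow_le_pow_right₀ (by linarith) (by omega)) h.large)
    · rw [abs_mul]
      exact mul_le_mul (le_max_left _ _) h.ha (abs_nonneg _) (by linarith)
    · rw [abs_mul]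
      exact mul_le_mul (le_max_right _ _) h.hb (abs_nonneg _) (by linarith)
  have toPt : ∀ δ' : ℝ, Real.exp ((X : ℝ) ^ δ) ^ 3 * (X : ℝ) ^ E ≤ Real.exp ((X : ℝ) ^ δ') →
      ∀ s ∈ T, Pt N E δ' X α β (a s) (b s) (x s) (y s) := by
    intro δ' hδ' s hs
    have h := hT s hs
    have h1 : max |α| |β| * (X : ℤ) ^ E < |x s| := by
      refine lt_of_le_of_lt (mx_le (by linarith) hM) (lt_of_le_of_lt ?_ (big s hs))
      exact pow_le_pow_right₀ (by linarith) (by omega)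
    refine ⟨h.ha, h.hb, h.eqn, h.gen, ?_, ?_, ?_⟩
    · refine lt_of_le_of_lt ?_ h1
      rw [abs_mul]
      exact mul_le_mul (le_max_left _ _) h.ha (abs_nonneg _) (by linarith)
    · refine lt_of_le_of_lt ?_ h1
      rw [abs_mul]
      exact mul_le_mul (le_max_right _ _) h.hb (abs_nonneg _) (by linarith)
    · refine le_trans ?_ hδ'
      have h2 := h.bound
      have h3 : (0 : ℝ) ≤ ((max |x s| |y s| : ℤ) : ℝ) := by
        have : (0 : ℤ) ≤ max |x s| |y s| := le_max_of_le_left (abs_nonneg _)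
        exact_mod_cast this
      gcongr
  have conv : ∀ C' : ℕ, C' ≤ C → ∀ z w : ℤ, Prp (Rb C' E X) z w → Prp (Rb C E X) z w := by
    intro C' hC' z w h
    refine h.mono ?_
    exact pow_le_pow_right₀ (by linarith) (by omega)
  have exp_le : ∀ δ' : ℝ, 2 * δ ≤ δ' → ∀ z : ℝ, z ≤ Real.exp ((X : ℝ) ^ δ) → z ≤ Real.exp ((X : ℝ) ^ δ') := by
    intro δ' hδ' z hz
    refine hz.trans (Real.exp_le_exp.2 ?_)
    exact Real.rpow_le_rpow_of_exponent_le hXr (by linarith)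
  have one_le : ∀ δ' : ℝ, (1 : ℝ) ≤ Real.exp ((X : ℝ) ^ δ') := fun δ' =>
    Real.one_le_exp (by positivity)
  have hX' : 1 ≤ X := by omega
  -- the three parts
  obtain ⟨T1, hT1⟩ : ∃ T1 : Finset P, T1 = T.filter fun s => α * a s ≠ 0 ∧ β * b s ≠ 0 := ⟨_, rfl⟩
  obtain ⟨T2, hT2⟩ : ∃ T2 : Finset P, T2 = T.filter fun s => α * a s ≠ 0 ∧ β * b s = 0 := ⟨_, rfl⟩
  obtain ⟨T3, hT3⟩ : ∃ T3 : Finset P, T3 = T.filter fun s => α * a s = 0 ∧ β * b s ≠ 0 := ⟨_, rfl⟩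
  have hcov : T ⊆ T1 ∪ (T2 ∪ T3) := by
    intro s hs
    rw [Finset.mem_union, Finset.mem_union, hT1, hT2, hT3, Finset.mem_filter, Finset.mem_filter,
      Finset.mem_filter]
    have := (hT s hs).ne
    tauto
  have hexp : (0 : ℝ) ≤ (X : ℝ) ^ (ε / 2) := by positivity
  have c1 : (T1.card : ℝ) ≤ (X : ℝ) ^ (ε / 2) := by
    rcases T1.eq_empty_or_nonempty with h | ⟨s1, hs1⟩
    · rw [h, Finset.card_empty, Nat.cast_zero]
      exact hexp
    have m1 : ∀ s ∈ T1, s ∈ T ∧ α * a s ≠ 0 ∧ β * b s ≠ 0 := fun s hs => by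
      rw [hT1] at hs
      exact Finset.mem_filter.1 hs
    obtain ⟨-, hA1, hB1⟩ := m1 s1 hs1
    refine class_bound H4 hX' (u := ![1, -1, -α, -β]) ?_ T1
      (fun s => ![y s ^ 2, x s ^ 3, a s * x s, b s]) ?_ ?_
    · intro i
      fin_cases i
      · exact ⟨by simp, by simp; positivity⟩
      · exact ⟨by simp, by simp; positivity⟩
      · refine ⟨by simpa using left_ne_zero_of_mul hA1, ?_⟩
        show ((|-α| : ℤ) : ℝ) ≤ _
        rw [abs_neg]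
        exact exp_le δ4 hd4 _ hα
      · refine ⟨by simpa using left_ne_zero_of_mul hB1, ?_⟩
        show ((|-β| : ℤ) : ℝ) ≤ _
        rw [abs_neg]
        exact exp_le δ4 hd4 _ hβ
    · intro s hs
      obtain ⟨k1, k2, k3⟩ := m1 s hs
      exact (toPt δ4 n4 s k1).gq4 hX' k2 k3
    · intro s hs s' hs' hne hnear
      obtain ⟨k1, k2, k3⟩ := m1 s hs
      obtain ⟨l1, l2, l3⟩ := m1 s' hs'
      have p1 := toPt δ4 n4 s k1
      have p2 := toPt δ4 n4 s' l1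
      obtain ⟨g1, g2⟩ := near4 p1.ha p1.hb p2.ha p2.hb (right_ne_zero_of_mul k2)
        (right_ne_zero_of_mul k3) (right_ne_zero_of_mul l2) (right_ne_zero_of_mul l3) hnear
      refine hsep s k1 s' l1 hne (iso_of p1 p2 hXz hM ⟨conv C4 hC4 _ _ g1, conv C4 hC4 _ _ g2⟩ ?_)
      rw [← hk]
      exact big s' l1
  have c2 : (T2.card : ℝ) ≤ (X : ℝ) ^ (ε / 2) := by
    rcases T2.eq_empty_or_nonempty with h | ⟨s1, hs1⟩
    · rw [h, Finset.card_empty, Nat.cast_zero]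
      exact hexp
    have m1 : ∀ s ∈ T2, s ∈ T ∧ α * a s ≠ 0 ∧ β * b s = 0 := fun s hs => by
      rw [hT2] at hs
      exact Finset.mem_filter.1 hs
    obtain ⟨-, hA1, hB1⟩ := m1 s1 hs1
    refine class_bound H3 hX' (u := ![1, -1, -α]) ?_ T2
      (fun s => ![y s ^ 2, x s ^ 3, a s * x s]) ?_ ?_
    · intro i
      fin_cases i
      · exact ⟨by simp, by simp; positivity⟩
      · exact ⟨by simp, by simp; positivity⟩
      · refine ⟨by simpa using left_ne_zero_of_mul hA1, ?_⟩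
        show ((|-α| : ℤ) : ℝ) ≤ _
        rw [abs_neg]
        exact exp_le δ3 hd3 _ hα
    · intro s hs
      obtain ⟨k1, k2, k3⟩ := m1 s hs
      exact (toPt δ3 n3 s k1).gq3a hX' k2 k3
    · intro s hs s' hs' hne hnear
      obtain ⟨k1, k2, k3⟩ := m1 s hs
      obtain ⟨l1, l2, l3⟩ := m1 s' hs'
      have p1 := toPt δ3 n3 s k1
      have p2 := toPt δ3 n3 s' l1
      obtain ⟨g1, g2⟩ := near3a p1.ha p2.ha (right_ne_zero_of_mul k2)
        (right_ne_zero_of_mul l2) p1.x_ne p2.x_ne hnear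
      refine hsep s k1 s' l1 hne (iso_of p1 p2 hXz hM ⟨conv C3 hC3 _ _ g1, conv C3 hC3 _ _ g2⟩ ?_)
      rw [← hk]
      exact big s' l1
  have c3 : (T3.card : ℝ) ≤ (X : ℝ) ^ (ε / 2) := by
    rcases T3.eq_empty_or_nonempty with h | ⟨s1, hs1⟩
    · rw [h, Finset.card_empty, Nat.cast_zero]
      exact hexp
    have m1 : ∀ s ∈ T3, s ∈ T ∧ α * a s = 0 ∧ β * b s ≠ 0 := fun s hs => by
      rw [hT3] at hs
      exact Finset.mem_filter.1 hs
    obtain ⟨-, hA1, hB1⟩ := m1 s1 hs1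
    refine class_bound H3 hX' (u := ![1, -1, -β]) ?_ T3
      (fun s => ![y s ^ 2, x s ^ 3, b s]) ?_ ?_
    · intro i
      fin_cases i
      · exact ⟨by simp, by simp; positivity⟩
      · exact ⟨by simp, by simp; positivity⟩
      · refine ⟨by simpa using left_ne_zero_of_mul hB1, ?_⟩
        show ((|-β| : ℤ) : ℝ) ≤ _
        rw [abs_neg]
        exact exp_le δ3 hd3 _ hβ
    · intro s hs
      obtain ⟨k1, k2, k3⟩ := m1 s hs
      exact (toPt δ3 n3 s k1).gq3b hX' k2 k3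
    · intro s hs s' hs' hne hnear
      obtain ⟨k1, k2, k3⟩ := m1 s hs
      obtain ⟨l1, l2, l3⟩ := m1 s' hs'
      have p1 := toPt δ3 n3 s k1
      have p2 := toPt δ3 n3 s' l1
      obtain ⟨g1, g2⟩ := near3b p1.hb p2.hb (right_ne_zero_of_mul k3)
        (right_ne_zero_of_mul l3) p1.x_ne p2.x_ne hnear
      refine hsep s k1 s' l1 hne (iso_of p1 p2 hXz hM ⟨conv C3 hC3 _ _ g1, conv C3 hC3 _ _ g2⟩ ?_)
      rw [← hk]
      exact big s' l1
  have htot : (T.card : ℝ) ≤ T1.card + (T2.card + T3.card) := by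
    have h1 := (Finset.card_le_card hcov).trans ((Finset.card_union_le _ _).trans
      (add_le_add_right (Finset.card_union_le T2 T3) _))
    exact_mod_cast h1
  linarith

end Pool.Agent.U405.HL
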